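import Pool.Agent.helper77.MC.Spec

/-!
# Row FA of project MC (MP_7e34bc_co)
-/

set_option autoImplicit false

namespace Pool.Agent.helper77.MC

open Finset Numbering

theorem FA_mem {β : Type} [Fintype β] (y : β → ℝ) (c : ℝ) (m : ℕ) (J : Finset β) :
    J ∈ fam y c m ↔ ∑ i ∈ J, y i = c ∧ #J ≤ m := by
  unfold fam
  simp only [Finset.mem_filter, Finset.mem_univ, true_and]

theorem FA : FA_stmt := by
  classical
  intro β _ y c d m l hy hc
  refine ⟨?_, ?_, ?_⟩
  · intro J hJ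
    obtain ⟨h1, h2⟩ := (FA_mem y c m J).mp hJ
    refine ⟨?_, h2, h1⟩
    rw [Finset.nonempty_iff_ne_empty]
    intro h
    rw [h, Finset.sum_empty] at h1
    exact (ne_of_gt hc) h1.symm
  · intro J hJ J' hJ' hs
    obtain ⟨h1, h2⟩ := (FA_mem y c m J).mp hJ
    obtain ⟨h3, h4⟩ := (FA_mem y c m J').mp hJ'
    by_contra hne
    obtain ⟨i, hi, hi'⟩ := Finset.exists_of_ssubset (Finset.ssubset_iff_subset_ne.mpr ⟨hs, hne⟩)
    have := Finset.sum_lt_sum_of_subset hs hi hi' (hy i) (fun j _ _ => (hy j).le)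
    rw [h1, h3] at this
    exact lt_irrefl _ this
  · intro hcd J hJ J' hJ' hs
    obtain ⟨h1, h2⟩ := (FA_mem y c m J).mp hJ
    obtain ⟨h3, h4⟩ := (FA_mem y d l J').mp hJ'
    have := Finset.sum_le_sum_of_subset_of_nonneg hs (fun j _ _ => (hy j).le)
    rw [h1, h3] at this
    exact absurd hcd (not_lt.mpr this)

end Pool.Agent.helper77.MC
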